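import Pool.Agent.helper32.QS.Spec

set_option autoImplicit false

open scoped BigOperators commutatorElement

namespace QS

theorem CEN_key (G : Type) [Group G] [Finite G] (p : ℕ) (hp : p.Prime) (N : Subgroup G)
    (hN : N.Normal) (hpN : ¬ p ∣ Nat.card N) (g : G) (hg : g ∈ N) (E : Subgroup G)
    (hE : ∀ x ∈ E, x ^ p = 1) :
    (∀ x : G, x ∈ E ↔ g * x * g⁻¹ ∈ E) ↔ E ≤ Subgroup.centralizer ({g} : Set G) := by
  constructor
  · intro h x hx
    rw [Subgroup.mem_centralizer_iff]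
    rintro h' rfl
    have hy : h' * x * h'⁻¹ * x⁻¹ ∈ E := E.mul_mem ((h x).1 hx) (E.inv_mem hx)
    have hyN : h' * x * h'⁻¹ * x⁻¹ ∈ N := by
      have e : h' * x * h'⁻¹ * x⁻¹ = h' * (x * h'⁻¹ * x⁻¹) := by group
      rw [e]
      exact N.mul_mem hg (hN.conj_mem _ (N.inv_mem hg) x)
    have hyp := hE _ hy
    have ho1 : orderOf (h' * x * h'⁻¹ * x⁻¹) ∣ p := orderOf_dvd_of_pow_eq_one hyp
    have ho2 : orderOf (h' * x * h'⁻¹ * x⁻¹) ∣ Nat.card N := N.orderOf_dvd_natCard hyN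
    have ho : orderOf (h' * x * h'⁻¹ * x⁻¹) = 1 := by
      rcases (Nat.dvd_prime hp).1 ho1 with h1 | h1
      · exact h1
      · exact absurd (h1 ▸ ho2) hpN
    have h1 := orderOf_eq_one_iff.1 ho
    calc h' * x = (h' * x * h'⁻¹ * x⁻¹) * (x * h') := by group
      _ = x * h' := by rw [h1, one_mul]
  · intro h x
    constructor
    · intro hx
      have h1 := (Subgroup.mem_centralizer_iff.1 (h hx)) g rfl
      have h2 : g * x * g⁻¹ = x := by rw [h1, mul_inv_cancel_right]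
      rw [h2]
      exact hx
    · intro hx
      have h1 := (Subgroup.mem_centralizer_iff.1 (h hx)) g rfl
      have h2 : g * x * g⁻¹ = x := by
        have h3 : g * (g * x * g⁻¹) = g * x := by rw [h1, inv_mul_cancel_right]
        exact mul_left_cancel h3
      rw [h2] at hx
      exact hx

theorem CEN : CEN_stmt := by
  intro G _ _ p hp N hN hpN g hg
  unfold Lef chi
  refine finsum_congr fun s => ?_
  have e : (IsChain (· ≤ ·) (s : Set (Subgroup G)) ∧
      ∀ E ∈ s, E ≠ ⊥ ∧ (∀ x ∈ E, ∀ y ∈ E, x * y = y * x) ∧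
        (∀ x ∈ E, x ^ p = 1) ∧ (∀ x : G, x ∈ E ↔ g * x * g⁻¹ ∈ E)) ↔
      s ∈ Chn p (Subgroup.centralizer ({g} : Set G)) := by
    unfold Chn EAb
    rw [Set.mem_setOf_eq]
    refine and_congr_right fun _ => forall_congr' fun E => forall_congr' fun _ => ?_
    constructor
    · rintro ⟨h1, h2, h3, h4⟩
      exact ⟨h1, ⟨h2, h3⟩, (CEN_key G p hp N hN hpN g hg E h3).1 h4⟩
    · rintro ⟨h1, ⟨h2, h3⟩, h4⟩
      exact ⟨h1, h2, h3, (CEN_key G p hp N hN hpN g hg E h3).2 h4⟩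
  exact finsum_congr_Prop (propext e) fun _ => rfl

end QS
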