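import Pool.Agent.helper32.QS.Spec

set_option autoImplicit false

open scoped BigOperators commutatorElement

namespace QS

/-- a finite commutative subring of `End V` whose nonzero elements are injective is a field. -/
theorem KF_field (V : Type) [AddCommGroup V] [Finite V] [Nontrivial V]
    (R : Subring (AddMonoid.End V)) (hc : ∀ x ∈ R, ∀ y ∈ R, x * y = y * x)
    (hinj : ∀ T ∈ R, T ≠ 0 → Function.Injective T) :
    ∃ (k : Type) (_ : Field k) (_ : Finite k) (f : k →+* AddMonoid.End V),
      Function.Injective f ∧ ∀ T, T ∈ R ↔ ∃ c, f c = T := by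
  haveI : Finite (AddMonoid.End V) :=
    Finite.of_injective (fun T : AddMonoid.End V => (T : V → V)) DFunLike.coe_injective
  letI : CommRing R :=
    { (inferInstance : Ring R) with mul_comm := fun a b => Subtype.ext (hc a a.2 b b.2) }
  haveI : Nontrivial R := by
    refine ⟨⟨1, 0, fun h => ?_⟩⟩
    obtain ⟨v, hv⟩ := exists_ne (0 : V)
    have h1 : ((1 : R) : AddMonoid.End V) = ((0 : R) : AddMonoid.End V) := congrArg Subtype.val h
    have h2 : ((1 : R) : AddMonoid.End V) v = ((0 : R) : AddMonoid.End V) v := by rw [h1]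
    exact hv h2
  haveI : NoZeroDivisors R := by
    refine ⟨fun {a b} hab => ?_⟩
    by_contra hcon
    rw [not_or] at hcon
    have ha : (a : AddMonoid.End V) ≠ 0 := fun h => hcon.1 (Subtype.ext h)
    apply hcon.2
    apply Subtype.ext
    have h1 : (a : AddMonoid.End V) * (b : AddMonoid.End V) = 0 := congrArg Subtype.val hab
    ext v
    have h2 : (a : AddMonoid.End V) ((b : AddMonoid.End V) v) = (a : AddMonoid.End V) 0 := by
      rw [map_zero]
      exact DFunLike.congr_fun h1 v
    exact hinj a a.2 ha h2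
  haveI : IsDomain R := NoZeroDivisors.to_isDomain R
  letI : Field R := (Finite.isField_of_domain R).toField
  refine ⟨R, inferInstance, inferInstance, R.subtype, Subtype.val_injective, fun T => ?_⟩
  constructor
  · intro h
    exact ⟨⟨T, h⟩, rfl⟩
  · rintro ⟨c, rfl⟩
    exact c.2

theorem KF_conj (V : Type) [AddCommGroup V] (H : Type) [Group H] [DistribMulAction H V]
    (A : Subgroup H) (hA : A.Normal) (h : H) (T : AddMonoid.End V) (hT : T ∈ RngOf H V A) :
    DistribMulAction.toAddMonoidEnd H V h * T * DistribMulAction.toAddMonoidEnd H V h⁻¹ ∈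
      RngOf H V A := by
  have e1 : DistribMulAction.toAddMonoidEnd H V h⁻¹ * DistribMulAction.toAddMonoidEnd H V h = 1 := by
    rw [← map_mul, inv_mul_cancel, map_one]
  have e2 : DistribMulAction.toAddMonoidEnd H V h * DistribMulAction.toAddMonoidEnd H V h⁻¹ = 1 := by
    rw [← map_mul, mul_inv_cancel, map_one]
  unfold RngOf at hT ⊢
  induction hT using Subring.closure_induction with
  | mem x hx =>
    obtain ⟨a, ha, rfl⟩ := hx
    refine Subring.subset_closure ⟨h * a * h⁻¹, hA.conj_mem a ha h, ?_⟩
    show DistribMulAction.toAddMonoidEnd H V (h * a * h⁻¹) = _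
    rw [map_mul, map_mul]
  | zero => rw [mul_zero, zero_mul]; exact Subring.zero_mem _
  | one => rw [mul_one, e2]; exact Subring.one_mem _
  | add x y _ _ hx hy => rw [mul_add, add_mul]; exact Subring.add_mem _ hx hy
  | neg x _ hx => rw [mul_neg, neg_mul]; exact Subring.neg_mem _ hx
  | mul x y _ _ hx hy =>
    have e : DistribMulAction.toAddMonoidEnd H V h * (x * y) *
        DistribMulAction.toAddMonoidEnd H V h⁻¹ =
        (DistribMulAction.toAddMonoidEnd H V h * x * DistribMulAction.toAddMonoidEnd H V h⁻¹) *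
        (DistribMulAction.toAddMonoidEnd H V h * y * DistribMulAction.toAddMonoidEnd H V h⁻¹) := by
      calc _ = DistribMulAction.toAddMonoidEnd H V h * x * 1 * y *
          DistribMulAction.toAddMonoidEnd H V h⁻¹ := by simp only [mul_one, mul_assoc]
        _ = _ := by rw [← e1]; simp only [mul_assoc]
    rw [e]
    exact Subring.mul_mem _ hx hy

theorem KF : KF_stmt := by
  intro V _ _ H _ _ _ hnt hsol hfai hqp
  haveI := hnt
  -- a maximal abelian normal subgroup
  obtain ⟨A, hAmax⟩ := Set.Finite.exists_maximal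
    (s := {A : Subgroup H | A.Normal ∧ ∀ a ∈ A, ∀ b ∈ A, a * b = b * a}) (Set.toFinite _)
    ⟨⊥, inferInstance, fun a ha b hb => by
      rw [Subgroup.mem_bot] at ha hb
      rw [ha, hb]⟩
  have hA : A.Normal ∧ ∀ a ∈ A, ∀ b ∈ A, a * b = b * a := hAmax.prop
  have hcomm : ∀ x ∈ RngOf H V A, ∀ y ∈ RngOf H V A, x * y = y * x := by
    intro x hx y hy
    have hs : ∀ x ∈ ((fun a : H => DistribMulAction.toAddMonoidEnd H V a) '' (A : Set H)),
        ∀ y ∈ ((fun a : H => DistribMulAction.toAddMonoidEnd H V a) '' (A : Set H)),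
        x * y = y * x := by
      rintro _ ⟨a, ha, rfl⟩ _ ⟨b, hb, rfl⟩
      show DistribMulAction.toAddMonoidEnd H V a * DistribMulAction.toAddMonoidEnd H V b =
        DistribMulAction.toAddMonoidEnd H V b * DistribMulAction.toAddMonoidEnd H V a
      rw [← map_mul, ← map_mul, hA.2 a ha b hb]
    letI := Subring.closureCommRingOfComm hs
    have h1 := mul_comm (⟨x, hx⟩ : Subring.closure
      ((fun a : H => DistribMulAction.toAddMonoidEnd H V a) '' (A : Set H))) ⟨y, hy⟩
    exact congrArg Subtype.val h1
  obtain ⟨k, _, _, f, hf, hfR⟩ := KF_field V (RngOf H V A) hcomm (hqp A hA.1 hA.2)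
  letI : Module k V := Module.compHom V f
  have hsm : ∀ (c : k) (v : V), c • v = f c v := fun c v => rfl
  -- conjugation
  have hs : ∀ (h : H) (c : k), ∃ d : k, f d = DistribMulAction.toAddMonoidEnd H V h * f c *
      DistribMulAction.toAddMonoidEnd H V h⁻¹ := by
    intro h c
    exact (hfR _).1 (KF_conj V H A hA.1 h (f c) ((hfR _).2 ⟨c, rfl⟩))
  choose s hs using hs
  have hmul : ∀ h h' : H, ∀ c, s h (s h' c) = s (h * h') c := by
    intro h h' c
    apply hf
    rw [hs, hs, hs, mul_inv_rev, map_mul, map_mul]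
    simp only [mul_assoc]
  have hone : ∀ c, s 1 c = c := by
    intro c
    apply hf
    rw [hs, inv_one, map_one, one_mul, mul_one]
  have e1 : ∀ h : H, DistribMulAction.toAddMonoidEnd H V h⁻¹ *
      DistribMulAction.toAddMonoidEnd H V h = 1 := by
    intro h
    rw [← map_mul, inv_mul_cancel, map_one]
  refine ⟨k, inferInstance, inferInstance, inferInstance, ?_⟩
  refine ⟨hnt, hfai, fun h => ?_, hsol, fun B hB hSB hBc => ?_⟩
  · refine ⟨{ toFun := s h, invFun := s h⁻¹, left_inv := fun c => ?_, right_inv := fun c => ?_,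
              map_mul' := fun c d => ?_, map_add' := fun c d => ?_ }, fun c u => ?_⟩
    · rw [hmul, inv_mul_cancel, hone]
    · rw [hmul, mul_inv_cancel, hone]
    · apply hf
      rw [hs, map_mul, map_mul, hs, hs]
      calc _ = DistribMulAction.toAddMonoidEnd H V h * f c * 1 * f d *
          DistribMulAction.toAddMonoidEnd H V h⁻¹ := by simp only [mul_one, mul_assoc]
        _ = _ := by rw [← e1 h]; simp only [mul_assoc]
    · apply hf
      rw [hs, map_add, map_add, hs, hs, mul_add, add_mul]
    · show h • (c • u) = s h c • (h • u)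
      rw [hsm, hsm, hs]
      show h • (f c u) = h • (f c (h⁻¹ • (h • u)))
      rw [inv_smul_smul]
  · -- maximality
    have hAS : A ≤ SA k V H := by
      intro a ha
      obtain ⟨c, hc⟩ := (hfR (DistribMulAction.toAddMonoidEnd H V a)).1
        (Subring.subset_closure ⟨a, ha, rfl⟩)
      have hc0 : c ≠ 0 := by
        rintro rfl
        rw [map_zero] at hc
        obtain ⟨v, hv⟩ := exists_ne (0 : V)
        have h1 : (0 : AddMonoid.End V) v = DistribMulAction.toAddMonoidEnd H V a v := by rw [hc]
        have h2 : (0 : V) = a • v := h1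
        exact hv ((smul_eq_zero_iff_eq a).1 h2.symm)
      refine ⟨Units.mk0 c hc0, fun u => ?_⟩
      rw [Units.val_mk0, hsm, hc]
      rfl
    exact (hAmax.le_of_ge ⟨hB, hBc⟩ (hAS.trans hSB)).trans hAS

end QS
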