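import Pool.Agent.helper4.QS.Spec

/-!
# NEC: necessity
-/

open scoped BigOperators ComplexOrder ComplexConjugate Topology

namespace Pool.Agent.QS

open Pool.Agent.helper86.CM Filter

noncomputable section

theorem NEC_lu_ge (hLUP : LUP_stmt) (t : ℤ) (ht : 2 < t) (k : ℕ) : (k : ℤ) ≤ lu t k := by
  induction k with
  | zero => simp [lu]
  | succ k ih =>
    have := (hLUP t ht k).2
    push_cast
    omega

theorem NEC_site (B : Lat 1 ≃ₗ[ℤ] Lat 1) (k : ℕ) (x : PP) :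
    site B 0 k 0 0 x = x.1 + pw B (k : ℤ) x.2 := by
  rw [site_apply]
  have : ((0 * 0 + 0 : ℕ) : ℤ) = 0 := by norm_num
  rw [this, pw_zero]

theorem NEC (hCAT : CAT_stmt) (hLUP : LUP_stmt) (hNE1 : NE1_stmt) (hSUB : SUB_stmt)
    (hPDL : PDL_stmt) (hPH0 : PH0_stmt) (hINVA : INVA_stmt) : NEC_stmt := by
  intro A hA hev htr F hF
  obtain ⟨k, N, hNZ, W, hk, hN, hW, hlim⟩ := hF
  obtain ⟨B, hB, hBA⟩ := hCAT A hA hev htr
  have hΨ : ∀ j, ∃ Ψ : PP → ℂ,
    PD (fun x y => QS.hN (N j) (x.1 + pw B (k j : ℤ) x.2) (y.1 + pw B (k j : ℤ) y.2)) Ψ ∧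
    Ψ 0 = 1 ∧
    (∀ x, Ψ (BB B x) = Ψ x) ∧ (∀ x : PP, Ψ (x.2, x.1) = Ψ x) ∧ (∀ n, Ψ (n, 0) = W j n) ∧
    ∀ x, ‖Ψ x‖ ≤ 1 := by
    intro j
    have := hNZ j
    exact hNE1 A B A.trace hB hBA (k j) (N j) (hN j) (W j) (hW j)
  choose Ψ h1 h2 h3 h4 h5 h6 using hΨ
  obtain ⟨φ, Φ, hφ, hΦ⟩ := hSUB PP Ψ h6
  have hφt : Tendsto φ atTop atTop := hφ.tendsto_atTop
  have hkφ : Tendsto (fun j => k (φ j)) atTop atTop := hk.comp hφt
  have hNinf : Tendsto (fun j => (N (φ j) : ℝ)) atTop atTop := by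
    have h7 : ∀ j, k (φ j) ≤ N (φ j) := by
      intro j
      have := NEC_lu_ge hLUP A.trace htr (k (φ j))
      rw [← hN (φ j)] at this
      exact_mod_cast this
    exact tendsto_natCast_atTop_atTop.comp (tendsto_atTop_mono h7 hkφ)
  obtain ⟨C, hC1, hC⟩ := hPH0 B A.trace hB
  have hform : ∀ x y : PP, Tendsto (fun j => QS.hN (N (φ j)) (x.1 + pw B (k (φ j) : ℤ) x.2)
      (y.1 + pw B (k (φ j) : ℤ) y.2)) atTop (𝓝 (hh B A.trace x y)) := by
    intro x y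
    rw [tendsto_iff_dist_tendsto_zero]
    have hz : Tendsto (fun j => C * ‖x‖ * ‖y‖ / (N (φ j) : ℝ)) atTop (𝓝 0) :=
      hNinf.const_div_atTop _
    refine squeeze_zero' (Eventually.of_forall fun j => dist_nonneg) ?_ hz
    filter_upwards [hkφ.eventually_ge_atTop 1] with j hj
    rw [Real.dist_eq]
    have := hC 0 (k (φ j)) 0 0 (N (φ j)) x y hj (hN (φ j))
    rw [NEC_site, NEC_site] at this
    exact this
  refine ⟨Φ, ?_, ?_⟩
  · rw [hINVA A B hBA Φ]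
    refine ⟨?_, ?_, ?_, ?_⟩
    · exact hPDL PP (fun j x y => QS.hN (N (φ j)) (x.1 + pw B (k (φ j) : ℤ) x.2)
        (y.1 + pw B (k (φ j) : ℤ) y.2)) (hh B A.trace) (fun j => Ψ (φ j)) Φ hform hΦ
        (fun j => h1 (φ j))
    · refine tendsto_nhds_unique (hΦ 0) ?_
      simp only [h2]
      exact tendsto_const_nhds
    · intro x
      refine tendsto_nhds_unique (hΦ (BB B x)) ?_
      simp only [h3]
      exact hΦ x
    · intro x
      refine tendsto_nhds_unique (hΦ (x.2, x.1)) ?_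
      simp only [h4]
      exact hΦ x
  · intro n
    refine tendsto_nhds_unique ((hlim n).comp hφt) ?_
    have := hΦ (n, 0)
    simp only [h5] at this
    exact this

end

end Pool.Agent.QS
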