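import Pool.Agent.helper51.QS.SpecA

/-!
# MP_74cfa5_ag, row qs:KDI (differentials of a function field)
-/

set_option autoImplicit false

namespace Pool.Agent.QS

open Pool.Agent.PC
open scoped TensorProduct IntermediateField.algebraAdjoinAdjoin

universe u

theorem KDI_card (k K : Type u) [Field k] [Field K] [Algebra k K] (n : ℕ) (x : Fin n → K)
    (hx : IsTranscendenceBasis k x) (s : Finset K) (hs : IsTranscendenceBasis k ((↑) : s → K)) :
    Fintype.card s = n := by
  have h := hx.lift_cardinalMk_eq hs
  have h2 : Cardinal.lift.{u} (Cardinal.mk (Fin n)) = Cardinal.lift.{0} (Cardinal.mk s) := h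
  rw [Cardinal.mk_fin, Cardinal.mk_fintype, Cardinal.lift_natCast, Cardinal.lift_natCast] at h2
  exact (Nat.cast_injective h2).symm

theorem KDI_etale (k K : Type u) [Field k] [Field K] [Algebra k K] (s : Finset K)
    (hs : AlgebraicIndependent k ((↑) : s → K))
    [Algebra.IsSeparable (IntermediateField.adjoin k (Set.range ((↑) : s → K))) K]
    [Algebra (MvPolynomial s k) K] (hal : algebraMap (MvPolynomial s k) K = (MvPolynomial.aeval ((↑) : s → K)).toRingHom) :
    Algebra.FormallyEtale (MvPolynomial s k) K := by
  have h1 : Algebra.FormallyEtale (Algebra.adjoin k (Set.range ((↑) : s → K)))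
      (IntermediateField.adjoin k (Set.range ((↑) : s → K))) :=
    .of_isLocalization (nonZeroDivisors _)
  have h2 : Algebra.FormallyEtale (IntermediateField.adjoin k (Set.range ((↑) : s → K))) K :=
    Algebra.FormallyEtale.of_isSeparable _ K
  have h3 : Algebra.FormallyEtale (Algebra.adjoin k (Set.range ((↑) : s → K))) K :=
    .comp _ (IntermediateField.adjoin k (Set.range ((↑) : s → K))) _
  let _ : Algebra (MvPolynomial s k) (Algebra.adjoin k (Set.range ((↑) : s → K))) :=
    hs.aevalEquiv.toAlgHom.toRingHom.toAlgebra
  have h4 : Algebra.FormallyEtale (MvPolynomial s k) (Algebra.adjoin k (Set.range ((↑) : s → K))) :=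
    .of_equiv (A := MvPolynomial s k)
      { hs.aevalEquiv.toRingEquiv with
        commutes' := fun r => rfl }
  have h5 : IsScalarTower (MvPolynomial s k) (Algebra.adjoin k (Set.range ((↑) : s → K))) K := by
    apply IsScalarTower.of_algebraMap_eq
    intro p
    rw [hal]
    exact (hs.algebraMap_aevalEquiv p).symm
  exact .comp _ (Algebra.adjoin k (Set.range ((↑) : s → K))) _

theorem KDI : KDI_stmt.{u} := by
  intro k K _ _ _ _ _ n x hx
  obtain ⟨s, hs, H⟩ := exists_isTranscendenceBasis_and_isSeparable_of_perfectField k K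
  have hcard := KDI_card k K n x hx s hs
  have hr : Set.range ((↑) : s → K) = (s : Set K) := Subtype.range_coe
  have H2 : Algebra.IsSeparable (IntermediateField.adjoin k (Set.range ((↑) : s → K))) K := by
    rw [hr]; exact H
  let _ : Algebra (MvPolynomial s k) K := (MvPolynomial.aeval ((↑) : s → K)).toRingHom.toAlgebra
  have h5 : IsScalarTower k (MvPolynomial s k) K := by
    apply IsScalarTower.of_algebraMap_eq
    intro c
    exact (MvPolynomial.aeval_C ((↑) : s → K) c).symm
  have h6 : Algebra.FormallyEtale (MvPolynomial s k) K := KDI_etale k K s hs.1 rfl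
  let b : Module.Basis s K (Ω[K⁄k]) :=
    (Algebra.TensorProduct.basis K (KaehlerDifferential.mvPolynomialBasis k s)).map
      (KaehlerDifferential.tensorKaehlerEquivOfFormallyEtale k (MvPolynomial s k) K)
  refine ⟨Module.Finite.of_basis b, ?_⟩
  rw [Module.finrank_eq_card_basis b, hcard]

end Pool.Agent.QS
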